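import Pool.Agent.Helper13_KRO.LLF
import Pool.Agent.Helper13_KRO.LSF
import Pool.Agent.Helper13_KRO.SSF
import Pool.Agent.Helper39_SOS.LL0
import Pool.Agent.Helper39_SOS.CLL
import Pool.Agent.Helper4_SOS.CSS
import Pool.Agent.Helper4_SOS.CLX
import Pool.Agent.Helper4_SOS.EqT
import Pool.Agent.Helper29_LPV.Hls
import Pool.Agent.Helper29_LPV.Mix7
import Pool.Agent.Helper7_KRO.L1
import Pool.Agent.Helper7_KRO.L3

/-!
# The certificate for `n = 22` (helper90, for MP_37fa12_co)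

All pieces together: the data are `Helper49_SOS/Dat22`, the theorem is `cert`.
-/

set_option autoImplicit false
set_option maxRecDepth 100000

namespace Pool.Agent.SOS.H90

open Pool.Agent.SOS Pool.Agent.SOS.H57 Pool.Agent.LPK Pool.Agent.LPV

/-- the data -/
def d22 : DD := ⟨N22.Pd, N22.Qd, N22.gd, N22.wd, N22.psd, N22.pld⟩

theorem q1 : H4.eq1 (H57.lE1 d22 N22.LL0 H29.lsX) Pool.Agent.Helper7_KRO.lE1 = true := by
  decide +kernel

theorem q2 : H4.eq1 (H57.lE2 d22 N22.LL0) Pool.Agent.Helper7_KRO.lE2 = true := by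
  decide +kernel

theorem q3 : H4.eq1 (H57.lF1 d22 H29.lsX (t3 22 (H57.u3 N22.gd))) Pool.Agent.Helper7_KRO.lE1p =
    true := by
  decide +kernel

theorem q4 : H4.eq1 (H57.lF2 d22 (t3 22 (H57.u3 (H57.wb1 N22.wd)))) Pool.Agent.Helper7_KRO.lE2p =
    true := by
  decide +kernel

theorem q5 : hzOk N22.pld = true := by decide +kernel

theorem q6 : cst1 d22 N22.LL0 H29.lsX (t3 22 (H57.u3 N22.gd)) (t3 22 (H57.u3 (H57.wb1 N22.wd))) <
    0 := by
  decide +kernel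

/-- **The certificate.** -/
theorem cert : CertW 22 (25 / 22) d22.W 23 5 :=
  certw d22 (LL0 := N22.LL0) (lsL := H29.lsX) (tg := t3 22 (H57.u3 N22.gd))
    (tw := t3 22 (H57.u3 (H57.wb1 N22.wd))) (TLL := tm3 N22.dLL)
    (TSS := tm3 H4.dSS) (TLS := tm3 H4.dLS)
    (L1 := H57.lE1 d22 N22.LL0 H29.lsX) (L2 := H57.lE2 d22 N22.LL0)
    (F1 := H57.lF1 d22 H29.lsX (t3 22 (H57.u3 N22.gd)))
    (F2 := H57.lF2 d22 (t3 22 (H57.u3 (H57.wb1 N22.wd))))
    N22.LL22 H29.hls rfl rfl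
    N22.eLL H4.eSS H4.eLSx
    Pool.Agent.Helper13_KRO.LLF.pos Pool.Agent.Helper13_KRO.SSF.pos Pool.Agent.Helper13_KRO.LSF.pos
    H29.mx7 rfl rfl rfl rfl
    (fun a ha => by
      rw [H4.eq1_v a _ _ q1, H4.eq1_v a _ _ q2]
      exact Pool.Agent.Helper7_KRO.l1_v1 a ha)
    (fun a ha => by
      rw [H4.eq1_v a _ _ q3, H4.eq1_v a _ _ q4]
      exact Pool.Agent.Helper7_KRO.l3_v1 a ha)
    q5 q6

end Pool.Agent.SOS.H90
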