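import Pool.Agent.Helper4_SOS.T3
import Pool.Agent.LPV.Defs

/-!
# The lines and the constant of a certificate (helper90, for MP_37fa12_co)

Everything as dense polynomials in one variable, computed from `LL0` (values of `D.LL`), `LS0` (values of
`-550 D.LS`), `Qd`, `gd`, `w`, `ps`.
-/

set_option autoImplicit false

namespace Pool.Agent.SOS.H90

open Pool.Agent.LPK Pool.Agent.LPV Pool.Agent.SOS

theorem e1_v1 (x : ℝ) : ∀ p : List ℤ, e1 p x = v1 p x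
  | [] => rfl
  | a :: p => by rw [e1, v1_cons, e1_v1 x p]

/-! ### rows -/

def hd1 : D1 → ℤ
  | [] => 0
  | a :: _ => a

def hd2 : D2 → D1
  | [] => []
  | a :: _ => a

def hd3 : D3 → D2
  | [] => []
  | a :: _ => a

/-- `p(x, 0, 0)` -/
def px (p : D3) : D1 := p.map fun q => hd1 (hd2 q)

/-- `p(0, y, 0)` -/
def py (p : D3) : D1 := (hd3 p).map hd1

theorem v1_hd1 : ∀ p : D1, v1 p 0 = (hd1 p : ℤ)
  | [] => by simp [v1_nil, hd1]
  | a :: p => by simp [v1_cons, hd1]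

theorem v2_hd2 (y : ℝ) : ∀ p : D2, v2 p 0 y = v1 (hd2 p) y
  | [] => rfl
  | a :: p => by simp [v2_cons, hd2]

theorem v3_hd3 (y z : ℝ) : ∀ p : D3, v3 p 0 y z = v2 (hd3 p) y z
  | [] => rfl
  | a :: p => by simp [v3_cons, hd3]

theorem v1_px (x : ℝ) : ∀ p : D3, v1 (px p) x = v3 p x 0 0
  | [] => rfl
  | q :: p => by
    show v1 (hd1 (hd2 q) :: px p) x = _
    rw [v1_cons, v3_cons, v1_px x p, v2_hd2, v1_hd1]

theorem v1_mhd (y : ℝ) : ∀ q : D2, v1 (q.map hd1) y = v2 q y 0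
  | [] => rfl
  | c :: q => by rw [List.map_cons, v1_cons, v2_cons, v1_mhd y q, v1_hd1]

theorem v1_py (p : D3) (y : ℝ) : v1 (py p) y = v3 p 0 y 0 := by rw [py, v1_mhd, v3_hd3]

/-- `p(x^2)` -/
def sq : D1 → D1
  | [] => []
  | a :: p => a :: 0 :: sq p

theorem v1_sq (x : ℝ) : ∀ p : D1, v1 (sq p) x = v1 p (x ^ 2)
  | [] => rfl
  | a :: p => by
    rw [sq, v1_cons, v1_cons, v1_cons, v1_sq x p, Int.cast_zero]
    ring

/-- `p(x, x^2)` -/
def dg2 : D2 → D1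
  | [] => []
  | c :: q => add1 (sq c) (0 :: dg2 q)

theorem v1_dg2 (x : ℝ) : ∀ q : D2, v1 (dg2 q) x = v2 q x (x ^ 2)
  | [] => rfl
  | c :: q => by rw [dg2, v1_add, v1_sq, v1_cons, v1_dg2 x q, v2_cons, Int.cast_zero, zero_add]

/-- `p(x, x, x^2)` -/
def dg3 : D3 → D1
  | [] => []
  | q :: p => add1 (dg2 q) (0 :: dg3 p)

theorem v1_dg3 (x : ℝ) : ∀ p : D3, v1 (dg3 p) x = v3 p x x (x ^ 2)
  | [] => rfl
  | q :: p => by rw [dg3, v1_add, v1_dg2, v1_cons, v1_dg3 x p, v3_cons, Int.cast_zero, zero_add]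

/-! ### functions of one vector -/

/-- `s(r x)` -/
def dil (c r : ℤ) : D1 → D1
  | [] => []
  | a :: p => Int.mul c a :: dil (Int.mul c r) r p

theorem v1_dil (r : ℤ) (x : ℝ) : ∀ (p : D1) (c : ℤ), v1 (dil c r p) x = c * v1 p (r * x)
  | [], c => by simp [dil, v1_nil]
  | a :: p, c => by
    rw [dil, v1_cons, v1_cons, v1_dil r x p, castMul, castMul]
    ring

/-- powers of `A` as a dense polynomial in three variables -/
def up (p : D1) : D3 := p.map fun c => [[c]]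

theorem v1_up (p : D1) (A B C : ℝ) : v3 (up p) A B C = v1 p A := by
  induction p with
  | nil => rfl
  | cons a p ih =>
    show v3 ([[a]] :: up p) A B C = _
    rw [v3_cons, ih, v1_cons, v2_cons, v2_nil, v1_cons, v1_nil]
    ring

theorem o3_up : ∀ (p : D1) (i : ℕ), ∀ t ∈ o3 i (up p), t.2.2.1 = 0 ∧ t.2.2.2 = 0
  | [], i => by simp [up, o3]
  | a :: p, i => by
    intro t ht
    have e : o3 i (up (a :: p)) = (a, i, 0, 0) :: o3 (i + 1) (up p) := rfl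
    rw [e] at ht
    rcases List.mem_cons.1 ht with h | h
    · rw [h]
      exact ⟨rfl, rfl⟩
    · exact o3_up p (i + 1) t h

/-- the field `evg` of `CertW` -/
theorem evg_up (p : D1) : ∀ t ∈ ofD (up p), t.2.2.1 = 0 ∧ t.2.2.2 = 0 := o3_up p 0

/-- the transform of a function of one vector, `x ↦ (T p)(x)` -/
def tr1 (n : ℤ) (p : D1) : D1 := px (t3 n (up p))

theorem v1_tr1 (n : ℕ) (p : D1) (x : ℝ) : v1 (tr1 n p) x = e3 (T3 n (ofD (up p))) x 0 0 := by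
  rw [tr1, v1_px, e3_T3]
  norm_num

theorem S_dbl (F : ℕ → ℕ → ℕ → ℝ) (s : List ℤ) :
    S F (dbl s) = s1 (fun i => 2 ^ i * F i 0 0) s := by
  have h : ∀ (s : List ℤ) (G : ℕ → ℝ), ((List.range s.length).map fun i => ((s.getD i 0 : ℤ) : ℝ) *
      G i).sum = s1 G s := by
    intro s
    induction s with
    | nil => intro G; rfl
    | cons a s ih =>
      intro G
      rw [List.length_cons, List.range_succ_eq_map, List.map_cons, List.sum_cons, List.map_map, s1,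
        ← ih (fun k => G (k + 1))]
      rfl
  rw [← h s (fun i => 2 ^ i * F i 0 0)]
  unfold S dbl
  rw [List.map_map]
  congr 1
  apply List.map_congr_left
  intro i _
  show (((s.getD i 0 * 2 ^ i : ℤ)) : ℝ) * F i 0 0 = _
  push_cast
  ring

theorem s1_dil (r : ℤ) : ∀ (p : D1) (c : ℤ) (G : ℕ → ℝ),
    s1 G (dil c r p) = s1 (fun i => c * (r : ℝ) ^ i * G i) p
  | [], c, G => rfl
  | a :: p, c, G => by
    rw [dil, s1, s1, s1_dil r p, castMul]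
    have h : (fun k : ℕ => ((Int.mul c r : ℤ) : ℝ) * (r : ℝ) ^ k * G (k + 1)) =
        fun k => c * (r : ℝ) ^ (k + 1) * G (k + 1) := by
      funext k
      rw [castMul]
      ring
    rw [h]
    ring

theorem S_up (F : ℕ → ℕ → ℕ → ℝ) (p : D1) : S F (ofD (up p)) = s1 (fun i => F i 0 0) p := by
  rw [S_ofD]
  have h : ∀ (p : D1) (L : ℕ → ℕ → ℕ → ℝ), s3 L (up p) = s1 (fun i => L i 0 0) p := by
    intro p
    induction p with
    | nil => intro L; rfl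
    | cons a p ih =>
      intro L
      show s2 (L 0) [[a]] + s3 (fun i => L (i + 1)) (up p) = _
      rw [ih, s1]
      simp [s2, s1]
  rw [h]

/-- the transform of `s(2A)` -/
theorem e3_dbl (n : ℕ) (s : List ℤ) (x : ℝ) :
    e3 (T3 n (dbl s)) x 0 0 = v1 (tr1 n (dil 1 2 s)) x := by
  rw [v1_tr1, e3_eq, e3_eq, S_T3, S_T3, S_dbl, S_up, s1_dil]
  congr 1
  funext i
  push_cast
  ring

/-! ### sums over the blocks -/

/-- `∑ d α s(r x)` for the squares of class sums -/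
def wA (w : List (ℕ × ℤ × ℤ × List ℤ)) : D1 :=
  w.foldr (fun d acc => add1 (dil (Int.mul (Int.ofNat d.1) d.2.1) 4 d.2.2.2) acc) []

theorem v1_wA (D : DW) (x : ℝ) : v1 (wA D.w) x = D.wa x := by
  unfold DW.wa
  induction D.w with
  | nil => rfl
  | cons d w ih =>
    show v1 (add1 (dil (Int.mul (Int.ofNat d.1) d.2.1) 4 d.2.2.2) (wA w)) x = _
    rw [v1_add, ih, v1_dil, castMul, List.map_cons, List.sum_cons, e1_v1]
    have : ((Int.ofNat d.1 : ℤ) : ℝ) = (d.1 : ℝ) := by simp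
    rw [this]
    push_cast
    ring

/-- `∑ d β ŝ(2x)` -/
def wB (n : ℤ) (w : List (ℕ × ℤ × ℤ × List ℤ)) : D1 :=
  w.foldr (fun d acc => add1 (dil (Int.mul (Int.ofNat d.1) d.2.2.1) 2 (tr1 n (dil 1 2 d.2.2.2))) acc) []

theorem v1_wB (n : ℕ) (D : DW) (x : ℝ) : v1 (wB n D.w) x = D.wb n x := by
  unfold DW.wb
  induction D.w with
  | nil => rfl
  | cons d w ih =>
    show v1 (add1 (dil (Int.mul (Int.ofNat d.1) d.2.2.1) 2 (tr1 n (dil 1 2 d.2.2.2))) (wB n w)) x = _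
    rw [v1_add, ih, v1_dil, castMul, List.map_cons, List.sum_cons, e3_dbl]
    have : ((Int.ofNat d.1 : ℤ) : ℝ) = (d.1 : ℝ) := by simp
    rw [this]
    push_cast
    ring

/-- `∑ d α s(x)` for the squares -/
def bO (ps : List (ℕ × ℤ × List ℤ)) : D1 :=
  ps.foldr (fun d acc => add1 (sc1 (Int.mul (Int.ofNat d.1) d.2.1) d.2.2) acc) []

theorem v1_bO (x : ℝ) : ∀ ps : List (ℕ × ℤ × List ℤ), v1 (bO ps) x = bo ps x
  | [] => rfl
  | d :: ps => by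
    show v1 (add1 (sc1 (Int.mul (Int.ofNat d.1) d.2.1) d.2.2) (bO ps)) x = _
    rw [v1_add, v1_bO x ps, v1_sc, castMul, bo, bo, List.map_cons, List.sum_cons, e1_v1]
    have : ((Int.ofNat d.1 : ℤ) : ℝ) = (d.1 : ℝ) := by simp
    rw [this]
    ring

/-- `∑ d α^2` -/
def bC (ps : List (ℕ × ℤ × List ℤ)) : ℤ :=
  ps.foldr (fun d acc => Int.add (Int.mul (Int.ofNat d.1) (Int.mul d.2.1 d.2.1)) acc) 0

theorem bC_eq : ∀ ps : List (ℕ × ℤ × List ℤ), ((bC ps : ℤ) : ℝ) = bc ps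
  | [] => by simp [bC, bc]
  | d :: ps => by
    show ((Int.add (Int.mul (Int.ofNat d.1) (Int.mul d.2.1 d.2.1)) (bC ps) : ℤ) : ℝ) = _
    rw [castAdd, bC_eq ps, castMul, castMul, bc, bc, List.map_cons, List.sum_cons]
    have : ((Int.ofNat d.1 : ℤ) : ℝ) = (d.1 : ℝ) := by simp
    rw [this]
    ring

/-- `∑ d (2^11 (α^2 + β^2) + 2 α β)`, `2048` times the constant of the class sums for `n = 22` -/
def wC (w : List (ℕ × ℤ × ℤ × List ℤ)) : ℤ :=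
  w.foldr (fun d acc => Int.add (Int.mul (Int.ofNat d.1) (Int.add (Int.mul 2048 (Int.add
    (Int.mul d.2.1 d.2.1) (Int.mul d.2.2.1 d.2.2.1))) (Int.mul 2 (Int.mul d.2.1 d.2.2.1)))) acc) 0

theorem wC_eq (D : DW) : ((wC D.w : ℤ) : ℝ) = 2048 * D.c0 22 := by
  unfold DW.c0
  induction D.w with
  | nil => simp [wC]
  | cons d w ih =>
    show ((Int.add (Int.mul (Int.ofNat d.1) (Int.add (Int.mul 2048 (Int.add
      (Int.mul d.2.1 d.2.1) (Int.mul d.2.2.1 d.2.2.1))) (Int.mul 2 (Int.mul d.2.1 d.2.2.1))))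
        (wC w) : ℤ) : ℝ) = _
    rw [castAdd, ih, castMul, castAdd, castMul, castAdd, castMul, castMul, castMul, castMul,
      List.map_cons, List.sum_cons]
    have h1 : ((Int.ofNat d.1 : ℤ) : ℝ) = (d.1 : ℝ) := by simp
    have h2 : rr 22 = 1 / 2048 := by norm_num [rr]
    rw [h1, h2]
    push_cast
    ring

/-! ### the lines -/

/-- `550 E1`: `550 (LL(x,0,0) + LL(0,x,0)) - LS0(x,0,0) + 550 g + 1100 bo` -/
def L1 (LL0 LS0 : D3) (gd : D1) (ps : List (ℕ × ℤ × List ℤ)) : D1 :=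
  add1 (sc1 550 (add1 (px LL0) (add1 (py LL0) (add1 gd (sc1 2 (bO ps)))))) (sc1 (-1) (px LS0))

/-- `550 E2` -/
def L2 (LL0 : D3) (w : List (ℕ × ℤ × ℤ × List ℤ)) : D1 :=
  sc1 1100 (add1 (dg3 LL0) (wA w))

/-- `550 E1'`: `550 (SS(x,0,0) + SS(0,x,0)) - LS0(0,x,0) - 484 ĝ` -/
def L3 (Qd LS0 : D3) (gd : D1) : D1 :=
  add1 (sc1 550 (add1 (px Qd) (py Qd))) (sc1 (-1) (add1 (py LS0) (sc1 484 (tr1 22 gd))))

/-- `550 E2'`: `1100 SS(x,x,x) + 2·484 wb` -/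
def L4 (Qd : D3) (w : List (ℕ × ℤ × ℤ × List ℤ)) : D1 :=
  add1 (sc1 1100 (dg3 Qd)) (sc1 968 (wB 22 w))

section

variable (D : DW) (Qd LL0 LS0 : D3) (gd : D1) (hQ : D.Q = ofD Qd) (hg : D.g = ofD (up gd))
  (hLL : ∀ A B H : ℝ, D.LL A B H = v3 LL0 A B (H ^ 2))
  (hLS : ∀ A B H : ℝ, -(550 * D.LS 22 (25 / 22) A B H) = v3 LS0 A B (H ^ 2))

include hg hLL hLS in
theorem v1_L1 (a : ℝ) : v1 (L1 LL0 LS0 gd D.ps) a = 550 * D.E1 22 (25 / 22) a := by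
  have h1 := hLL a 0 0
  have h2 := hLL 0 a 0
  have h3 := hLS a 0 0
  have z : (0 : ℝ) ^ 2 = 0 := by norm_num
  rw [z] at h1 h2 h3
  have h4 : e3 D.g a 0 0 = v1 gd a := by rw [hg, e3_ofD, v1_up]
  unfold L1 DW.E1 DW.f1
  rw [v1_add, v1_sc, v1_add, v1_add, v1_add, v1_sc, v1_sc, v1_px, v1_py, v1_px, v1_bO, h1, h2, h4,
    ← h3]
  push_cast
  ring

include hLL in
theorem v1_L2 (a : ℝ) : v1 (L2 LL0 D.w) a = 550 * D.E2 a := by
  unfold L2 DW.E2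
  rw [v1_sc, v1_add, v1_dg3, v1_wA, hLL]
  push_cast
  ring

include hQ hg hLS in
theorem v1_L3 (a : ℝ) : v1 (L3 Qd LS0 gd) a = 550 * D.E1' 22 (25 / 22) a := by
  have h3 := hLS 0 a 0
  have z : (0 : ℝ) ^ 2 = 0 := by norm_num
  rw [z] at h3
  have h4 : e3 (T3 22 D.g) a 0 0 = v1 (tr1 22 gd) a := by
    rw [hg]
    exact (v1_tr1 22 gd a).symm
  have h5 : D.SS a 0 0 = v3 Qd a 0 0 := by rw [DW.SS, hQ, e3_ofD, z]
  have h6 : D.SS 0 a 0 = v3 Qd 0 a 0 := by rw [DW.SS, hQ, e3_ofD, z]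
  unfold L3 DW.E1' DW.f1'
  rw [v1_add, v1_sc, v1_add, v1_sc, v1_add, v1_sc, v1_px, v1_py, v1_py, h4, h5, h6, ← h3]
  push_cast
  ring

include hQ in
theorem v1_L4 (a : ℝ) : v1 (L4 Qd D.w) a = 550 * D.E2' 22 (25 / 22) a := by
  have h1 : D.SS a a a = v3 Qd a a (a ^ 2) := by rw [DW.SS, hQ, e3_ofD]
  have h2 : v1 (wB ((22 : ℕ) : ℤ) D.w) a = D.wb 22 a := v1_wB 22 D a
  unfold L4 DW.E2'
  have h3 : (((22 : ℕ) : ℤ)) = 22 := rfl
  rw [h3] at h2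
  rw [v1_add, v1_sc, v1_sc, v1_dg3, h2, h1]
  push_cast
  ring

/-- `550 · 2048 · cst` -/
def cI : ℤ :=
  Int.add (Int.mul 2048 (Int.add (Int.mul 550 (Int.add (hd1 (px LL0)) (Int.add (hd1 (px Qd))
      (Int.add (hd1 gd) (Int.add (Int.mul 2 (hd1 (bO D.ps))) (Int.add (Int.mul 2 (hd1 (wA D.w)))
        (bC D.ps))))))) (Int.add (Int.mul (-1) (hd1 (px LS0))) (Int.add (Int.mul (-484)
          (hd1 (tr1 22 gd))) (Int.mul 968 (hd1 (wB 22 D.w))))))) (Int.mul 550 (wC D.w))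

include hQ hg hLL hLS in
theorem cI_eq : ((cI D Qd LL0 LS0 gd : ℤ) : ℝ) = 550 * 2048 * D.cst 22 (25 / 22) := by
  have h1 := hLL 0 0 0
  have h3 := hLS 0 0 0
  have z : (0 : ℝ) ^ 2 = 0 := by norm_num
  rw [z] at h1 h3
  have h4 : e3 D.g 0 0 0 = v1 gd 0 := by rw [hg, e3_ofD, v1_up]
  have h5 : e3 (T3 22 D.g) 0 0 0 = v1 (tr1 22 gd) 0 := by
    rw [hg]
    exact (v1_tr1 22 gd 0).symm
  have h6 : D.SS 0 0 0 = v3 Qd 0 0 0 := by rw [DW.SS, hQ, e3_ofD, z]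
  have h2 : v1 (wB ((22 : ℕ) : ℤ) D.w) 0 = D.wb 22 0 := v1_wB 22 D 0
  have h7 : (((22 : ℕ) : ℤ)) = 22 := rfl
  rw [h7] at h2
  unfold cI DW.cst DW.f1 DW.f1'
  simp only [castAdd, castMul]
  rw [← v1_hd1, ← v1_hd1, ← v1_hd1, ← v1_hd1, ← v1_hd1, ← v1_hd1, ← v1_hd1, ← v1_hd1, wC_eq, bC_eq,
    v1_px, v1_px, v1_px, v1_bO, v1_wA, h2, h1, h4, h5, h6, ← h3]
  push_cast
  ring

end

end Pool.Agent.SOS.H90
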